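import Mathlib

set_option autoImplicit false

/-!
# Project NS (helper54): near relations lie in few subspaces. Statements of the modules.

`SIEGEL` (30 min, Mathlib only): weighted Siegel lemma by pigeonhole. Proof on paper: let `P = ∏ h i`,
`T = ((3 d) ^ m P) ^ (1 / (d - m))`, so `T ≥ 1` and `T ^ (d - m) = (3 d) ^ m P`. The box of the integer vectors
`0 ≤ t i ≤ ⌊T / h i⌋` has `∏ (⌊T / h i⌋ + 1) > T ^ d / P` elements (`d ≥ 1`), and `t ↦ (∑ i, t i * c i j)_j` maps it into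
`[-⌊d T⌋, ⌊d T⌋] ^ m` (since `|t i * c i j| ≤ T`), with `(2 ⌊d T⌋ + 1) ^ m ≤ (3 d T) ^ m = T ^ m (3 d) ^ m = T ^ d / P`
elements. So two vectors of the box have the same image; take the difference: `|t i| ≤ T / h i`.
(Use `Finset.exists_ne_map_eq_of_card_lt_of_maps_to` with `Fintype.piFinset`.)

`COVER` (30 min, Mathlib only): for `H₀ ≤ ht v ≤ Y` there is `k` with `H₀ ^ (ρ ^ k) ≤ ht v ≤ (H₀ ^ (ρ ^ k)) ^ ρ` and
`ρ ^ k log H₀ ≤ log Y`, so `k ≤ (log log Y - log log H₀) / log ρ`. Take the spans of the windows `k ≤ K`, and the lines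
spanned by the vectors of `F`.

`PRIM` (20-30 min): in a subspace of dimension `≤ 1` there is at most one primitive integer vector whose last coordinate
is positive; so the number of the primitive vectors in the union of `T.card` such subspaces is at most `T.card`.
-/

namespace Pool.Agent.D0H54.NS

open Finset

/-- weighted Siegel lemma -/
def S_SIEGEL : Prop :=
  ∀ (m d : ℕ), m < d → ∀ (c : Fin d → Fin m → ℤ) (h : Fin d → ℝ), (∀ i, 1 ≤ h i) →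
    (∀ i j, |(c i j : ℝ)| ≤ h i) → ∃ t : Fin d → ℤ, t ≠ 0 ∧ (∀ j, ∑ i, t i * c i j = 0) ∧
      ∀ i, |(t i : ℝ)| * h i ≤ ((3 * d : ℝ) ^ m * ∏ i, h i) ^ (1 / ((d : ℝ) - m))

/-- the covering by few subspaces -/
def S_COVER : Prop :=
  ∀ (V : Type) [AddCommGroup V] [Module ℚ V] [Module.Finite ℚ V] (ρ H₀ : ℝ) (K D : ℕ), 1 < ρ → 2 ≤ H₀ → 1 ≤ D →
    ∃ C : ℝ, ∀ (S : Set V) (ht : V → ℝ) (F : Finset V), F.card ≤ K → (∀ v ∈ S, ht v < H₀ → v ∈ F) →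
      (∀ H : ℝ, H₀ ≤ H → Module.finrank ℚ (Submodule.span ℚ {v : V | v ∈ S ∧ H ≤ ht v ∧ ht v ≤ H ^ ρ}) ≤ D) →
      ∀ Y : ℝ, 3 ≤ Y → ∃ T : Finset (Submodule ℚ V),
        (T.card : ℝ) ≤ Real.log (Real.log Y) / Real.log ρ + C ∧
        (∀ W ∈ T, Module.finrank ℚ W ≤ D) ∧ ∀ v ∈ S, ht v ≤ Y → ∃ W ∈ T, v ∈ W

/-- the integer vector as a rational vector -/
def toQ {n : ℕ} (a : Fin (n + 1) → ℤ) (c : ℤ) : (Fin (n + 1) → ℚ) × (Fin 1 → ℚ) := (fun j => (a j : ℚ), fun _ => (c : ℚ))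

/-- primitive vectors with positive last coordinate in lines -/
def S_PRIM : Prop :=
  ∀ (n : ℕ) (T : Finset (Submodule ℚ ((Fin (n + 1) → ℚ) × (Fin 1 → ℚ)))), (∀ W ∈ T, Module.finrank ℚ W ≤ 1) →
    ∀ S : Set ((Fin (n + 1) → ℤ) × ℤ), (∀ v ∈ S, 0 < v.2 ∧ (∀ d : ℤ, (∀ j, d ∣ v.1 j) → d ∣ v.2 → IsUnit d) ∧
      ∃ W ∈ T, toQ v.1 v.2 ∈ W) → S.Finite ∧ S.ncard ≤ T.card

end Pool.Agent.D0H54.NS
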