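import Pool.Agent.D0H54.NS.Gap
import Pool.Agent.D0H92.NS.Cover
import Pool.Agent.D0H62.NS.Prim

set_option autoImplicit false

/-! Project NS (helper54): assembly. -/

namespace Pool.Agent.D0H54.NS

open Finset

lemma toV_injective {n m : ℕ} : Function.Injective (toV : (Fin (n + 1) → ℤ) × (Fin m → ℤ) → _) := by
  intro v v' h
  unfold toV at h
  rw [Prod.mk.injEq] at h
  apply Prod.ext
  · funext j
    have := congrFun h.1 j
    exact_mod_cast this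
  · funext j
    have := congrFun h.2 j
    exact_mod_cast this

/-- the vectors of bounded height -/
lemma bounded_finite {n m : ℕ} (B : ℝ) : {v : (Fin (n + 1) → ℤ) × (Fin m → ℤ) | (height v : ℝ) ≤ B}.Finite := by
  have h1 : (Set.Icc (fun _ : Fin (n + 1) => -⌈B⌉) (fun _ => ⌈B⌉) ×ˢ Set.Icc (fun _ : Fin m => -⌈B⌉) (fun _ => ⌈B⌉)).Finite :=
    (Set.finite_Icc _ _).prod (Set.finite_Icc _ _)
  apply h1.subset
  intro v hv
  have hv' : (height v : ℝ) ≤ B := hv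
  have key : ∀ z : ℤ, |(z : ℝ)| ≤ height v → -⌈B⌉ ≤ z ∧ z ≤ ⌈B⌉ := by
    intro z hz
    have h2 : |(z : ℝ)| ≤ ⌈B⌉ := (hz.trans hv').trans (Int.le_ceil B)
    rw [abs_le] at h2
    constructor
    · exact_mod_cast h2.1
    · exact_mod_cast h2.2
  refine ⟨⟨fun j => (key _ (abs_le_height1 v j)).1, fun j => (key _ (abs_le_height1 v j)).2⟩,
    ⟨fun j => (key _ (abs_le_height2 v j)).1, fun j => (key _ (abs_le_height2 v j)).2⟩⟩

theorem few (hS : S_SIEGEL) (n m D : ℕ) (hm : 1 ≤ m) (hmD : m ≤ D) (u : Fin (n + 1) → ℤ) (hu : Function.Injective u)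
    (w ρ : ℝ) (hρ : 1 < ρ) (hw : ρ < ((w + 1) * ((D : ℝ) + 1 - m) / (n + 1) - 1) / D) :
    ∃ C : ℝ, ∀ (ξ : Fin m → ℂ) (Y : ℝ), 3 ≤ Y →
      ∃ T : Finset (Submodule ℚ ((Fin (n + 1) → ℚ) × (Fin m → ℚ))),
        (T.card : ℝ) ≤ Real.log (Real.log Y) / Real.log ρ + C ∧ (∀ W ∈ T, Module.finrank ℚ W ≤ D) ∧
        ∀ v : (Fin (n + 1) → ℤ) × (Fin m → ℤ), v ≠ 0 → (height v : ℝ) ≤ Y →
          ‖value u ξ v‖ ≤ (height v : ℝ) ^ (-w) → ∃ W ∈ T, toV v ∈ W := by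
  classical
  obtain ⟨H₀, hH₀, hgap⟩ := gap hS n m D hm hmD u hu w ρ hρ hw
  obtain ⟨F, hF⟩ : ∃ F : Finset ((Fin (n + 1) → ℚ) × (Fin m → ℚ)),
      F = (bounded_finite (n := n) (m := m) H₀).toFinset.image toV := ⟨_, rfl⟩
  obtain ⟨C, hC⟩ := Pool.Agent.D0H92.NS.t_COVER ((Fin (n + 1) → ℚ) × (Fin m → ℚ)) ρ H₀ F.card D hρ hH₀ (hm.trans hmD)
  refine ⟨C, fun ξ Y hY => ?_⟩
  obtain ⟨ht, hht⟩ : ∃ ht : (Fin (n + 1) → ℚ) × (Fin m → ℚ) → ℝ, ∀ v, ht (toV v) = (height v : ℝ) :=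
    ⟨fun x => (height (Function.invFun toV x) : ℝ), fun v => by
      show ((height (Function.invFun toV (toV v)) : ℕ) : ℝ) = height v
      rw [Function.leftInverse_invFun toV_injective v]⟩
  obtain ⟨T, hT1, hT2, hT3⟩ := hC {x | ∃ v : (Fin (n + 1) → ℤ) × (Fin m → ℤ), v ≠ 0 ∧
      ‖value u ξ v‖ ≤ (height v : ℝ) ^ (-w) ∧ toV v = x} ht F le_rfl (by
      rintro x ⟨v, hv1, hv2, rfl⟩ hx
      rw [hht] at hx
      rw [hF, Finset.mem_image]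
      exact ⟨v, (Set.Finite.mem_toFinset _).2 hx.le, rfl⟩) (by
      intro H hH
      by_contra hcon
      push Not at hcon
      obtain ⟨b, hb1, hb2, hb3⟩ := exists_linearIndependent ℚ {x | x ∈ {x | ∃ v : (Fin (n + 1) → ℤ) × (Fin m → ℤ), v ≠ 0 ∧
        ‖value u ξ v‖ ≤ (height v : ℝ) ^ (-w) ∧ toV v = x} ∧ H ≤ ht x ∧ ht x ≤ H ^ ρ}
      rw [← hb2] at hcon
      have hbfin : b.Finite := hb3.setFinite
      have : Fintype b := hbfin.fintype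
      rw [finrank_span_set_eq_card hb3, Set.toFinset_card] at hcon
      obtain ⟨e⟩ : Nonempty (Fin (D + 1) ↪ b) := Function.Embedding.nonempty_of_card_le (by
        rw [Fintype.card_fin]
        exact hcon)
      have hmem : ∀ i : Fin (D + 1), ∃ v : (Fin (n + 1) → ℤ) × (Fin m → ℤ), toV v = (e i : _) ∧
          ‖value u ξ v‖ ≤ (height v : ℝ) ^ (-w) ∧ H ≤ height v ∧ (height v : ℝ) ≤ H ^ ρ := by
        intro i
        obtain ⟨⟨v, hv1, hv2, hv3⟩, h1, h2⟩ := hb1 (e i).2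
        rw [← hv3, hht] at h1 h2
        exact ⟨v, hv3, hv2, h1, h2⟩
      choose v hv1 hv2 hv3 hv4 using hmem
      apply hgap ξ H hH v
      · have h1 : (fun i => toV (v i)) = (fun i => ((↑) : b → _) (e i)) := funext fun i => hv1 i
        rw [h1]
        exact hb3.comp e e.injective
      · intro i
        exact ⟨hv3 i, hv4 i, hv2 i⟩) Y hY
  refine ⟨T, hT1, hT2, fun v hv hvY hvw => ?_⟩
  exact hT3 (toV v) ⟨v, hv, hvw, rfl⟩ (by rw [hht]; exact hvY)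

/-- one arbitrary number: the number of primitive vectors -/
theorem count (hS : S_SIEGEL) (n : ℕ) (u : Fin (n + 1) → ℤ) (hu : Function.Injective u)
    (w ρ : ℝ) (hρ : 1 < ρ) (hw : ρ < (w - n) / (n + 1)) :
    ∃ C : ℝ, ∀ (ξ : ℂ) (Y : ℝ), 3 ≤ Y →
      {v : (Fin (n + 1) → ℤ) × (Fin 1 → ℤ) | 0 < v.2 0 ∧ (∀ d : ℤ, (∀ j, d ∣ v.1 j) → d ∣ v.2 0 → IsUnit d) ∧
        (height v : ℝ) ≤ Y ∧ ‖value u (fun _ => ξ) v‖ ≤ (height v : ℝ) ^ (-w)}.Finite ∧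
      ({v : (Fin (n + 1) → ℤ) × (Fin 1 → ℤ) | 0 < v.2 0 ∧ (∀ d : ℤ, (∀ j, d ∣ v.1 j) → d ∣ v.2 0 → IsUnit d) ∧
        (height v : ℝ) ≤ Y ∧ ‖value u (fun _ => ξ) v‖ ≤ (height v : ℝ) ^ (-w)}.ncard : ℝ) ≤
        Real.log (Real.log Y) / Real.log ρ + C := by
  classical
  obtain ⟨C, hC⟩ := few hS n 1 1 le_rfl le_rfl u hu w ρ hρ (by
    have h0 : (0 : ℝ) < (n : ℝ) + 1 := by positivity
    refine lt_of_lt_of_eq hw ?_
    push_cast
    field_simp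
    ring)
  refine ⟨C, fun ξ Y hY => ?_⟩
  obtain ⟨T, hT1, hT2, hT3⟩ := hC (fun _ => ξ) Y hY
  obtain ⟨g, hg⟩ : ∃ g : (Fin (n + 1) → ℤ) × (Fin 1 → ℤ) → (Fin (n + 1) → ℤ) × ℤ, g = fun v => (v.1, v.2 0) := ⟨_, rfl⟩
  have hginj : Function.Injective g := by
    intro v v' h
    rw [hg, Prod.mk.injEq] at h
    apply Prod.ext h.1
    funext i
    rw [Subsingleton.elim i 0]
    exact h.2
  have h1 := Pool.Agent.D0H62.NS.t_PRIM n T hT2 (g '' {v : (Fin (n + 1) → ℤ) × (Fin 1 → ℤ) | 0 < v.2 0 ∧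
      (∀ d : ℤ, (∀ j, d ∣ v.1 j) → d ∣ v.2 0 → IsUnit d) ∧
      (height v : ℝ) ≤ Y ∧ ‖value u (fun _ => ξ) v‖ ≤ (height v : ℝ) ^ (-w)}) (by
    rintro x ⟨v, ⟨h1, h2, h3, h4⟩, rfl⟩
    have hv0 : v ≠ 0 := by
      rintro rfl
      simp at h1
    obtain ⟨W, hW, hvW⟩ := hT3 v hv0 h3 h4
    rw [hg]
    refine ⟨h1, h2, W, hW, ?_⟩
    have h5 : toQ v.1 (v.2 0) = toV v := by
      unfold toQ toV
      apply Prod.ext
      · rfl
      · funext i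
        rw [Subsingleton.elim i 0]
    show toQ v.1 (v.2 0) ∈ W
    rw [h5]
    exact hvW)
  refine ⟨Set.Finite.of_finite_image h1.1 hginj.injOn, ?_⟩
  rw [← Set.ncard_image_of_injective _ hginj]
  refine le_trans ?_ hT1
  exact_mod_cast h1.2

end Pool.Agent.D0H54.NS
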