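import Pool.Agent.D0H54.NS.Stm
import Pool.Agent.D0H21.PE.Lin

set_option autoImplicit false

/-! Project NS (helper54): the gap principle. -/

namespace Pool.Agent.D0H54.NS

open Finset

/-- the height of an integer vector -/
def height {n m : ℕ} (v : (Fin (n + 1) → ℤ) × (Fin m → ℤ)) : ℕ :=
  max (univ.sup fun j => (v.1 j).natAbs) (univ.sup fun i => (v.2 i).natAbs)

/-- the value of the linear form -/
noncomputable def value {n m : ℕ} (u : Fin (n + 1) → ℤ) (ξ : Fin m → ℂ) (v : (Fin (n + 1) → ℤ) × (Fin m → ℤ)) : ℂ :=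
  ∑ j, (v.1 j : ℂ) * ((Real.exp (u j) : ℝ) : ℂ) + ∑ i, (v.2 i : ℂ) * ξ i

/-- the integer vector as a rational vector -/
def toV {n m : ℕ} (v : (Fin (n + 1) → ℤ) × (Fin m → ℤ)) : (Fin (n + 1) → ℚ) × (Fin m → ℚ) :=
  (fun j => (v.1 j : ℚ), fun i => (v.2 i : ℚ))

lemma abs_le_height1 {n m : ℕ} (v : (Fin (n + 1) → ℤ) × (Fin m → ℤ)) (j : Fin (n + 1)) :
    |(v.1 j : ℝ)| ≤ height v := by
  have h1 : (v.1 j).natAbs ≤ height v :=
    le_trans (le_sup (f := fun j => (v.1 j).natAbs) (mem_univ j)) (le_max_left _ _)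
  have h2 : |(v.1 j : ℝ)| = ((v.1 j).natAbs : ℝ) := by
    rw [Nat.cast_natAbs, Int.cast_abs]
  rw [h2]
  exact_mod_cast h1

lemma abs_le_height2 {n m : ℕ} (v : (Fin (n + 1) → ℤ) × (Fin m → ℤ)) (j : Fin m) :
    |(v.2 j : ℝ)| ≤ height v := by
  have h1 : (v.2 j).natAbs ≤ height v :=
    le_trans (le_sup (f := fun j => (v.2 j).natAbs) (mem_univ j)) (le_max_right _ _)
  have h2 : |(v.2 j : ℝ)| = ((v.2 j).natAbs : ℝ) := by
    rw [Nat.cast_natAbs, Int.cast_abs]
  rw [h2]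
  exact_mod_cast h1

/-- the gap principle -/
theorem gap (hS : S_SIEGEL) (n m D : ℕ) (hm : 1 ≤ m) (hmD : m ≤ D) (u : Fin (n + 1) → ℤ) (hu : Function.Injective u)
    (w ρ : ℝ) (hρ : 1 < ρ) (hw : ρ < ((w + 1) * ((D : ℝ) + 1 - m) / (n + 1) - 1) / D) :
    ∃ H₀ : ℝ, 2 ≤ H₀ ∧ ∀ (ξ : Fin m → ℂ) (H : ℝ), H₀ ≤ H →
      ∀ v : Fin (D + 1) → (Fin (n + 1) → ℤ) × (Fin m → ℤ), LinearIndependent ℚ (fun i => toV (v i)) →
      (∀ i, H ≤ height (v i) ∧ (height (v i) : ℝ) ≤ H ^ ρ ∧ ‖value u ξ (v i)‖ ≤ (height (v i) : ℝ) ^ (-w)) → False := by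
  have hD0 : (0 : ℝ) < D := by
    have : 0 < D := by omega
    exact_mod_cast this
  have hn0 : (0 : ℝ) < (n : ℝ) + 1 := by positivity
  have hdm : (0 : ℝ) < (D : ℝ) + 1 - m := by
    have : (m : ℝ) ≤ D := by exact_mod_cast hmD
    linarith
  obtain ⟨E, hE⟩ : ∃ E : ℝ, E = (1 + D * ρ) / ((D : ℝ) + 1 - m) := ⟨_, rfl⟩
  have hE0 : 0 < E := by
    rw [hE]
    positivity
  have hEw : E * (n + 1) < w + 1 := by
    rw [lt_div_iff₀ hD0, lt_sub_iff_add_lt, lt_div_iff₀ hn0] at hw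
    rw [hE, div_mul_eq_mul_div, div_lt_iff₀ hdm]
    linarith
  -- the loss
  obtain ⟨η, hη⟩ : ∃ η : ℝ, η = (w + 1 - E * (n + 1)) / (2 * E) := ⟨_, rfl⟩
  have hη0 : 0 < η := by
    rw [hη]
    apply div_pos (by linarith) (by linarith)
  obtain ⟨δ, hδ⟩ : ∃ δ : ℝ, δ = (w + 1) - E * (n + 1 + η) := ⟨_, rfl⟩
  have hδ0 : 0 < δ := by
    have : E * η = (w + 1 - E * (n + 1)) / 2 := by
      rw [hη]
      field_simp
    rw [hδ, mul_add, this]
    linarith
  obtain ⟨c₀, hc₀, hmeas⟩ := Pool.Agent.D0H21.PE.meas_all n u hu η hη0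
  obtain ⟨K₁, hK₁⟩ : ∃ K₁ : ℝ, K₁ = ((D : ℝ) + 1) * ((3 * ((D + 1 : ℕ) : ℝ)) ^ m) ^ (1 / ((D : ℝ) + 1 - m)) := ⟨_, rfl⟩
  have hK₁0 : 0 < K₁ := by
    rw [hK₁]
    positivity
  obtain ⟨x₀, hx₀⟩ : ∃ x₀ : ℝ, ∀ x : ℝ, x₀ ≤ x → K₁ ^ ((n : ℝ) + 1 + η) / c₀ < x ^ δ := by
    have h1 := (tendsto_rpow_atTop hδ0).eventually_gt_atTop (K₁ ^ ((n : ℝ) + 1 + η) / c₀)
    exact Filter.eventually_atTop.1 h1
  refine ⟨max 2 x₀, le_max_left _ _, fun ξ H hH v hv hvi => ?_⟩
  have hH2 : 2 ≤ H := le_trans (le_max_left _ _) hH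
  have hHx : x₀ ≤ H := le_trans (le_max_right _ _) hH
  obtain ⟨h, hh⟩ : ∃ h : Fin (D + 1) → ℝ, ∀ i, h i = (height (v i) : ℝ) := ⟨_, fun _ => rfl⟩
  have hhH : ∀ i, H ≤ h i := fun i => by rw [hh]; exact (hvi i).1
  have hh1 : ∀ i, 1 ≤ h i := fun i => by linarith [hhH i]
  have hh0 : ∀ i, 0 < h i := fun i => by linarith [hhH i]
  obtain ⟨i₀, hi₀⟩ := Finite.exists_min h
  obtain ⟨x, hx⟩ : ∃ x : ℝ, x = h i₀ := ⟨_, rfl⟩
  rw [← hx] at hi₀
  have hx1 : 1 ≤ x := by rw [hx]; exact hh1 i₀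
  have hx0 : 0 < x := by linarith
  have hxH : H ≤ x := by rw [hx]; exact hhH i₀
  have hxρ : ∀ i, h i ≤ x ^ ρ := fun i => by
    have h1 : H ^ ρ ≤ x ^ ρ := Real.rpow_le_rpow (by linarith) hxH (by linarith)
    have h2 := (hvi i).2.1
    rw [← hh] at h2
    exact h2.trans h1
  -- the product of the heights
  have hP : ∏ i, h i ≤ x ^ (1 + D * ρ) := by
    rw [← Finset.mul_prod_erase univ h (mem_univ i₀), ← hx, Real.rpow_add hx0, Real.rpow_one]
    apply mul_le_mul_of_nonneg_left _ hx0.le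
    calc ∏ i ∈ univ.erase i₀, h i ≤ ∏ _i ∈ univ.erase i₀, x ^ ρ :=
          Finset.prod_le_prod (fun i _ => (hh0 i).le) (fun i _ => hxρ i)
      _ = x ^ ((D : ℝ) * ρ) := by
          rw [Finset.prod_const, Finset.card_erase_of_mem (mem_univ i₀), Finset.card_univ, Fintype.card_fin,
            Nat.add_sub_cancel, ← Real.rpow_natCast, ← Real.rpow_mul hx0.le]
          congr 1
          ring
  have hP1 : 1 ≤ ∏ i, h i :=
    Finset.prod_induction h (fun y => 1 ≤ y) (fun a b ha hb => one_le_mul_of_one_le_of_one_le ha hb) le_rfl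
      (fun i _ => hh1 i)
  obtain ⟨t, ht0, htc, hth⟩ := hS m (D + 1) (by omega) (fun i => (v i).2) h hh1 (fun i j => by
    rw [hh]
    exact abs_le_height2 (v i) j)
  obtain ⟨T, hT⟩ : ∃ T : ℝ, T = ((3 * ((D + 1 : ℕ) : ℝ)) ^ m * ∏ i, h i) ^ (1 / (((D + 1 : ℕ) : ℝ) - m)) := ⟨_, rfl⟩
  rw [← hT] at hth
  have h3d : (1 : ℝ) ≤ (3 * ((D + 1 : ℕ) : ℝ)) ^ m := by
    apply one_le_pow₀
    push_cast
    linarith
  have hT1 : 1 ≤ T := by
    rw [hT]
    apply Real.one_le_rpow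
    · exact one_le_mul_of_one_le_of_one_le h3d hP1
    · push_cast
      positivity
  have hT0 : 0 < T := by linarith
  have hDT1 : 1 ≤ ((D : ℝ) + 1) * T := by nlinarith
  -- `(D + 1) T ≤ K₁ x ^ E`
  have hTx : ((D : ℝ) + 1) * T ≤ K₁ * x ^ E := by
    rw [hT, hK₁, mul_assoc]
    apply mul_le_mul_of_nonneg_left _ (by positivity)
    have e1 : (((D + 1 : ℕ) : ℝ) - m) = (D : ℝ) + 1 - m := by push_cast; ring
    rw [e1, Real.mul_rpow (by positivity) (by positivity)]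
    apply mul_le_mul_of_nonneg_left _ (by positivity)
    calc (∏ i, h i) ^ (1 / ((D : ℝ) + 1 - m)) ≤ (x ^ (1 + D * ρ)) ^ (1 / ((D : ℝ) + 1 - m)) :=
          Real.rpow_le_rpow (by linarith) hP (by positivity)
      _ = x ^ E := by
          rw [← Real.rpow_mul hx0.le, hE]
          congr 1
          ring
  -- the linear form in the exponentials
  obtain ⟨a, ha⟩ : ∃ a : Fin (n + 1) → ℤ, ∀ j, a j = ∑ i, t i * (v i).1 j := ⟨_, fun _ => rfl⟩
  have ha0 : a ≠ 0 := by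
    intro h0
    apply ht0
    have h1 : ∑ i, (t i : ℚ) • toV (v i) = 0 := by
      apply Prod.ext
      · funext j
        rw [Prod.fst_sum, Finset.sum_apply]
        have h2 : (a j : ℚ) = 0 := by
          rw [h0]
          simp
        rw [ha] at h2
        push_cast at h2
        exact h2
      · funext j
        rw [Prod.snd_sum, Finset.sum_apply]
        have h2 : ((∑ i, t i * (v i).2 j : ℤ) : ℚ) = 0 := by
          rw [htc j]
          simp
        push_cast at h2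
        exact h2
    have h3 := Fintype.linearIndependent_iff.1 hv (fun i => (t i : ℚ)) h1
    funext i
    have h4 := h3 i
    exact_mod_cast h4
  have haH : ∀ j, |(a j : ℝ)| ≤ ((D : ℝ) + 1) * T := by
    intro j
    rw [ha]
    push_cast
    calc |∑ i, (t i : ℝ) * ((v i).1 j : ℝ)| ≤ ∑ i, |(t i : ℝ) * ((v i).1 j : ℝ)| := Finset.abs_sum_le_sum_abs _ _
      _ ≤ ∑ _i : Fin (D + 1), T := by
          apply Finset.sum_le_sum
          intro i _
          rw [abs_mul]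
          refine le_trans ?_ (hth i)
          apply mul_le_mul_of_nonneg_left _ (abs_nonneg _)
          rw [hh]
          exact abs_le_height1 (v i) j
      _ = ((D : ℝ) + 1) * T := by
          rw [Finset.sum_const, Finset.card_univ, Fintype.card_fin, nsmul_eq_mul]
          push_cast
          ring
  have hval : ((∑ j, (a j : ℝ) * Real.exp (u j) : ℝ) : ℂ) = ∑ i, (t i : ℂ) * value u ξ (v i) := by
    have e1 : ∀ i, (t i : ℂ) * value u ξ (v i) = ∑ j, (t i : ℂ) * (((v i).1 j : ℂ) * ((Real.exp (u j) : ℝ) : ℂ)) +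
        ∑ j, (t i : ℂ) * (((v i).2 j : ℂ) * ξ j) := by
      intro i
      unfold value
      rw [mul_add, Finset.mul_sum, Finset.mul_sum]
    rw [Finset.sum_congr rfl fun i _ => e1 i, Finset.sum_add_distrib, Finset.sum_comm,
      Finset.sum_comm (f := fun i j => (t i : ℂ) * (((v i).2 j : ℂ) * ξ j))]
    have e2 : ∀ j, ∑ i, (t i : ℂ) * (((v i).2 j : ℂ) * ξ j) = 0 := by
      intro j
      have h2 : ((∑ i, t i * (v i).2 j : ℤ) : ℂ) = 0 := by
        rw [htc j]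
        simp
      push_cast at h2
      calc ∑ i, (t i : ℂ) * (((v i).2 j : ℂ) * ξ j) = (∑ i, (t i : ℂ) * ((v i).2 j : ℂ)) * ξ j := by
            rw [Finset.sum_mul]
            refine Finset.sum_congr rfl fun i _ => by ring
        _ = 0 := by rw [h2, zero_mul]
    rw [Finset.sum_congr rfl fun j _ => e2 j, Finset.sum_const_zero, add_zero]
    push_cast
    refine Finset.sum_congr rfl fun j _ => ?_
    rw [ha]
    push_cast
    rw [Finset.sum_mul]
    refine Finset.sum_congr rfl fun i _ => by ring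
  have hsmall : |∑ j, (a j : ℝ) * Real.exp (u j)| ≤ ((D : ℝ) + 1) * T * x ^ (-(w + 1)) := by
    have e1 : |∑ j, (a j : ℝ) * Real.exp (u j)| = ‖((∑ j, (a j : ℝ) * Real.exp (u j) : ℝ) : ℂ)‖ := by
      rw [Complex.norm_real, Real.norm_eq_abs]
    rw [e1, hval]
    have hw1 : 0 < w + 1 := by
      have : 0 < E * (n + 1) := by positivity
      linarith
    calc ‖∑ i, (t i : ℂ) * value u ξ (v i)‖ ≤ ∑ i, ‖(t i : ℂ) * value u ξ (v i)‖ := norm_sum_le _ _
      _ ≤ ∑ _i : Fin (D + 1), T * x ^ (-(w + 1)) := by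
          apply Finset.sum_le_sum
          intro i _
          rw [norm_mul]
          have h1 : ‖(t i : ℂ)‖ = |(t i : ℝ)| := by
            rw [Complex.norm_intCast]
          rw [h1]
          have h2 := (hvi i).2.2
          rw [← hh] at h2
          have h3 : (h i) ^ (-w) = h i * (h i) ^ (-(w + 1)) := by
            nth_rewrite 2 [← Real.rpow_one (h i)]
            rw [← Real.rpow_add (hh0 i)]
            congr 1
            ring
          have h4 : (h i) ^ (-(w + 1)) ≤ x ^ (-(w + 1)) :=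
            Real.rpow_le_rpow_of_nonpos hx0 (hi₀ i) (by linarith)
          calc |(t i : ℝ)| * ‖value u ξ (v i)‖ ≤ |(t i : ℝ)| * (h i * (h i) ^ (-(w + 1))) := by
                rw [← h3]
                exact mul_le_mul_of_nonneg_left h2 (abs_nonneg _)
            _ = (|(t i : ℝ)| * h i) * (h i) ^ (-(w + 1)) := by ring
            _ ≤ T * x ^ (-(w + 1)) :=
                mul_le_mul (hth i) h4 (Real.rpow_nonneg (hh0 i).le _) hT0.le
      _ = ((D : ℝ) + 1) * T * x ^ (-(w + 1)) := by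
          rw [Finset.sum_const, Finset.card_univ, Fintype.card_fin, nsmul_eq_mul]
          push_cast
          ring
  have hfin := hmeas a ha0 (((D : ℝ) + 1) * T) hDT1 haH
  have h5 : c₀ ≤ (K₁ * x ^ E) ^ ((n : ℝ) + 1 + η) * x ^ (-(w + 1)) := by
    calc c₀ ≤ (((D : ℝ) + 1) * T) ^ ((n : ℝ) + η) * |∑ j, (a j : ℝ) * Real.exp (u j)| := hfin
      _ ≤ (((D : ℝ) + 1) * T) ^ ((n : ℝ) + η) * (((D : ℝ) + 1) * T * x ^ (-(w + 1))) :=
          mul_le_mul_of_nonneg_left hsmall (by positivity)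
      _ = (((D : ℝ) + 1) * T) ^ ((n : ℝ) + 1 + η) * x ^ (-(w + 1)) := by
          rw [← mul_assoc]
          congr 1
          nth_rewrite 2 [← Real.rpow_one (((D : ℝ) + 1) * T)]
          rw [← Real.rpow_add (by linarith)]
          congr 1
          ring
      _ ≤ _ := by
          apply mul_le_mul_of_nonneg_right _ (by positivity)
          exact Real.rpow_le_rpow (by linarith) hTx (by positivity)
  have h6 : (K₁ * x ^ E) ^ ((n : ℝ) + 1 + η) * x ^ (-(w + 1)) = K₁ ^ ((n : ℝ) + 1 + η) * x ^ (-δ) := by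
    rw [Real.mul_rpow hK₁0.le (by positivity), mul_assoc, ← Real.rpow_mul hx0.le, ← Real.rpow_add hx0, hδ]
    congr 2
    ring
  rw [h6, Real.rpow_neg hx0.le, ← div_eq_mul_inv, le_div_iff₀ (by positivity)] at h5
  have h7 := hx₀ x (hHx.trans hxH)
  rw [div_lt_iff₀ hc₀] at h7
  linarith

end Pool.Agent.D0H54.NS
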