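import Pool.Agent.D0H54.NS.Fin

set_option autoImplicit false

/-! Project NS (helper54): the order of magnitude `log log Y` cannot be improved. -/

namespace Pool.Agent.D0H54.NS

open Finset

/-- the terms `2 ^ (- W ^ k)` -/
noncomputable def tm (W k : ℕ) : ℝ := (1 / 2) ^ (W ^ k)

lemma tm_pos (W k : ℕ) : 0 < tm W k := by
  unfold tm
  positivity

lemma tm_le {W : ℕ} (hW : 2 ≤ W) (k i : ℕ) : tm W (i + k) ≤ tm W k * (1 / 2) ^ i := by
  unfold tm
  rw [← pow_add]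
  apply pow_le_pow_of_le_one (by norm_num) (by norm_num)
  have h1 : i + 1 ≤ W ^ i := by
    have : i < 2 ^ i := Nat.lt_two_pow_self
    have h2 : 2 ^ i ≤ W ^ i := Nat.pow_le_pow_left hW i
    omega
  have h2 : 1 ≤ W ^ k := Nat.one_le_pow _ _ (by omega)
  rw [pow_add]
  nlinarith

lemma tm_summable {W : ℕ} (hW : 2 ≤ W) : Summable (tm W) := by
  refine Summable.of_nonneg_of_le (fun k => (tm_pos W k).le) (fun k => ?_)
    ((summable_geometric_two).mul_left (tm W 0))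
  have := tm_le hW 0 k
  rw [add_zero] at this
  exact this

lemma tail_le {W : ℕ} (hW : 2 ≤ W) (k : ℕ) : ∑' i, tm W (i + k) ≤ 2 * tm W k := by
  have h1 : Summable (fun i => tm W (i + k)) := (summable_nat_add_iff k).2 (tm_summable hW)
  calc ∑' i, tm W (i + k) ≤ ∑' i : ℕ, tm W k * (1 / 2) ^ i :=
        h1.tsum_le_tsum (fun i => tm_le hW k i) (summable_geometric_two.mul_left _)
    _ = 2 * tm W k := by
        rw [tsum_mul_left, tsum_geometric_two]
        ring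

/-- the numerators -/
def bb (W k : ℕ) : ℕ := ∑ j ∈ range (k + 1), 2 ^ (W ^ k - W ^ j)

lemma bb_eq {W : ℕ} (hW : 2 ≤ W) (k : ℕ) : (bb W k : ℝ) = 2 ^ (W ^ k) * ∑ j ∈ range (k + 1), tm W j := by
  unfold bb tm
  push_cast
  rw [mul_sum]
  refine sum_congr rfl fun j hj => ?_
  have hjk : W ^ j ≤ W ^ k := Nat.pow_le_pow_right (by omega) (by rw [mem_range] at hj; omega)
  rw [pow_sub₀ (2 : ℝ) (by norm_num) hjk, one_div, inv_pow]

lemma bb_odd {W : ℕ} (hW : 2 ≤ W) (k : ℕ) : Odd (bb W k) := by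
  unfold bb
  rw [sum_range_succ, Nat.sub_self, pow_zero]
  apply Even.add_one
  apply Finset.even_sum
  intro j hj
  rw [mem_range] at hj
  have : W ^ j < W ^ k := Nat.pow_lt_pow_right (by omega) hj
  exact (Nat.even_pow.2 ⟨even_two, by omega⟩)

/-- the vectors -/
def vv (n W k : ℕ) : (Fin (n + 1) → ℤ) × (Fin 1 → ℤ) :=
  (fun j => if j = 0 then (bb W k : ℤ) else 0, fun _ => (2 ^ (W ^ k) : ℕ))

lemma bb_le {W : ℕ} (hW : 2 ≤ W) (k : ℕ) : bb W k ≤ 2 ^ (W ^ k) := by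
  have h1 : (bb W k : ℝ) ≤ ((2 ^ (W ^ k) : ℕ) : ℝ) := by
    rw [bb_eq hW]
    push_cast
    have h2 : ∑ j ∈ range (k + 1), tm W j ≤ ∑' j, tm W j :=
      (tm_summable hW).sum_le_tsum _ fun j _ => (tm_pos W j).le
    have h3 := tail_le hW 0
    have h4 : tm W 0 = 1 / 2 := by
      unfold tm
      rw [pow_zero, pow_one]
    simp only [add_zero] at h3
    rw [h4] at h3
    have h5 : ∑ j ∈ range (k + 1), tm W j ≤ 1 := by linarith
    have h6 : (0 : ℝ) < 2 ^ (W ^ k) := by positivity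
    nlinarith
  exact_mod_cast h1

lemma height_vv {W : ℕ} (hW : 2 ≤ W) (n k : ℕ) : height (vv n W k) = 2 ^ (W ^ k) := by
  unfold height vv
  apply le_antisymm
  · apply max_le
    · apply Finset.sup_le
      intro j _
      by_cases hj : j = 0
      · simp only [hj, if_true]
        rw [Int.natAbs_natCast]
        exact bb_le hW k
      · simp [hj]
    · apply Finset.sup_le
      intro j _
      rw [Int.natAbs_natCast]
  · refine le_trans ?_ (le_max_right _ _)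
    refine le_trans ?_ (le_sup (f := fun _ : Fin 1 => ((2 ^ (W ^ k) : ℕ) : ℤ).natAbs) (mem_univ 0))
    rw [Int.natAbs_natCast]

lemma value_vv {W : ℕ} (hW : 2 ≤ W) (n k : ℕ) (u : Fin (n + 1) → ℤ) :
    ‖value u (fun _ => ((-(Real.exp (u 0)) * ∑' j, tm W j : ℝ) : ℂ)) (vv n W k)‖ ≤
      2 * Real.exp (u 0) * (2 ^ (W ^ k) * tm W (k + 1)) := by
  have h1 : value u (fun _ => ((-(Real.exp (u 0)) * ∑' j, tm W j : ℝ) : ℂ)) (vv n W k) =
      ((Real.exp (u 0) * ((bb W k : ℝ) - 2 ^ (W ^ k) * ∑' j, tm W j) : ℝ) : ℂ) := by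
    unfold value vv
    rw [Finset.sum_eq_single (0 : Fin (n + 1)) (fun j _ hj => by simp [hj]) (fun h => absurd (mem_univ _) h)]
    simp only [if_true, univ_unique, sum_const, card_singleton, one_smul]
    push_cast
    ring
  rw [h1, Complex.norm_real, Real.norm_eq_abs, abs_mul, abs_of_pos (Real.exp_pos _)]
  have h2 := (tm_summable hW).sum_add_tsum_nat_add (k + 1)
  have h3 : (bb W k : ℝ) - 2 ^ (W ^ k) * ∑' j, tm W j = -(2 ^ (W ^ k) * ∑' i, tm W (i + (k + 1))) := by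
    rw [bb_eq hW, ← h2]
    ring
  have h4 := tail_le hW (k + 1)
  have h5 : 0 ≤ ∑' i, tm W (i + (k + 1)) := tsum_nonneg fun i => (tm_pos W _).le
  rw [h3, abs_neg, abs_of_nonneg (by positivity)]
  have h6 : 0 < Real.exp (u 0) := Real.exp_pos _
  calc Real.exp (u 0) * (2 ^ (W ^ k) * ∑' i, tm W (i + (k + 1)))
      ≤ Real.exp (u 0) * (2 ^ (W ^ k) * (2 * tm W (k + 1))) := by gcongr
    _ = _ := by ring

theorem sharp (n : ℕ) (u : Fin (n + 1) → ℤ) (w : ℝ) (W : ℕ) (hW : 2 ≤ W) (hw : w + 1 < W) :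
    ∃ (ξ C : ℝ), ∀ Y : ℝ, 3 ≤ Y → Real.log (Real.log Y) / Real.log W - C ≤
      ({v : (Fin (n + 1) → ℤ) × (Fin 1 → ℤ) | 0 < v.2 0 ∧ (∀ d : ℤ, (∀ j, d ∣ v.1 j) → d ∣ v.2 0 → IsUnit d) ∧
        (height v : ℝ) ≤ Y ∧ ‖value u (fun _ => (ξ : ℂ)) v‖ ≤ (height v : ℝ) ^ (-w)}.ncard : ℝ) := by
  classical
  have hδ : 0 < (W : ℝ) - 1 - w := by linarith
  have hW1 : (1 : ℝ) < W := by exact_mod_cast (by omega : 1 < W)
  have hlW : 0 < Real.log W := Real.log_pos hW1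
  have hl2 : 0 < Real.log 2 := Real.log_pos (by norm_num)
  -- the first index
  obtain ⟨k₀, hk₀⟩ : ∃ k₀ : ℕ, ∀ k : ℕ, k₀ ≤ k → Real.log (2 * Real.exp (u 0)) ≤ ((W : ℝ) - 1 - w) * W ^ k * Real.log 2 := by
    obtain ⟨k₀, hk₀⟩ := pow_unbounded_of_one_lt (Real.log (2 * Real.exp (u 0)) / (((W : ℝ) - 1 - w) * Real.log 2)) hW1
    refine ⟨k₀, fun k hk => ?_⟩
    have h1 : (W : ℝ) ^ k₀ ≤ (W : ℝ) ^ k := pow_le_pow_right₀ hW1.le hk
    rw [div_lt_iff₀ (by positivity)] at hk₀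
    have h2 : (W : ℝ) ^ k₀ * (((W : ℝ) - 1 - w) * Real.log 2) ≤ (W : ℝ) ^ k * (((W : ℝ) - 1 - w) * Real.log 2) :=
      mul_le_mul_of_nonneg_right h1 (by positivity)
    nlinarith
  refine ⟨-(Real.exp (u 0)) * ∑' j, tm W j, k₀, fun Y hY => ?_⟩
  have hlY : 1 < Real.log Y := by
    rw [Real.lt_log_iff_exp_lt (by linarith)]
    have := Real.exp_one_lt_d9
    linarith
  obtain ⟨K, hK⟩ : ∃ K : ℕ, K = ⌊Real.log (Real.log Y / Real.log 2) / Real.log W⌋₊ := ⟨_, rfl⟩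
  have hl2' : Real.log 2 < 1 := by
    have := Real.log_two_lt_d9
    linarith
  have hq : Real.log Y ≤ Real.log Y / Real.log 2 := by
    rw [le_div_iff₀ hl2]
    nlinarith
  have hq1 : 0 ≤ Real.log (Real.log Y / Real.log 2) / Real.log W := by
    apply div_nonneg (Real.log_nonneg (by linarith)) hlW.le
  have hKY : ∀ k : ℕ, k ≤ K → ((2 ^ (W ^ k) : ℕ) : ℝ) ≤ Y := by
    intro k hk
    have h1 : (k : ℝ) ≤ Real.log (Real.log Y / Real.log 2) / Real.log W := by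
      have h2 : (K : ℝ) ≤ Real.log (Real.log Y / Real.log 2) / Real.log W := by
        rw [hK]
        exact Nat.floor_le hq1
      have h3 : (k : ℝ) ≤ K := by exact_mod_cast hk
      linarith
    rw [le_div_iff₀ hlW, ← Real.log_pow] at h1
    have h2 : (W : ℝ) ^ k ≤ Real.log Y / Real.log 2 :=
      (Real.log_le_log_iff (by positivity) (by positivity)).1 h1
    rw [le_div_iff₀ hl2] at h2
    push_cast
    rw [← Real.log_le_log_iff (by positivity) (by linarith), Real.log_pow]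
    push_cast
    exact h2
  have hinj : Function.Injective (vv n W) := by
    intro k k' h
    have h1 : (vv n W k).2 0 = (vv n W k').2 0 := by rw [h]
    have h2 : 2 ^ (W ^ k) = 2 ^ (W ^ k') := by
      have h3 : ((2 ^ (W ^ k) : ℕ) : ℤ) = ((2 ^ (W ^ k') : ℕ) : ℤ) := h1
      exact_mod_cast h3
    exact Nat.pow_right_injective hW (Nat.pow_right_injective le_rfl h2)
  have hsub : vv n W '' ((Finset.Icc k₀ K : Finset ℕ) : Set ℕ) ⊆
      {v : (Fin (n + 1) → ℤ) × (Fin 1 → ℤ) | 0 < v.2 0 ∧ (∀ d : ℤ, (∀ j, d ∣ v.1 j) → d ∣ v.2 0 → IsUnit d) ∧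
        (height v : ℝ) ≤ Y ∧ ‖value u (fun _ => ((-(Real.exp (u 0)) * ∑' j, tm W j : ℝ) : ℂ)) v‖ ≤
          (height v : ℝ) ^ (-w)} := by
    rintro _ ⟨k, hk, rfl⟩
    rw [Finset.mem_coe, mem_Icc] at hk
    refine ⟨?_, ?_, ?_, ?_⟩
    · show (0 : ℤ) < ((2 ^ (W ^ k) : ℕ) : ℤ)
      positivity
    · intro d hd1 hd2
      have h1 : d ∣ (bb W k : ℤ) := by
        have := hd1 0
        simpa [vv] using this
      have h2 : d ∣ ((2 ^ (W ^ k) : ℕ) : ℤ) := hd2
      have hco : IsCoprime ((bb W k : ℕ) : ℤ) ((2 ^ (W ^ k) : ℕ) : ℤ) := by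
        rw [Nat.isCoprime_iff_coprime]
        apply Nat.Coprime.pow_right
        exact (Nat.coprime_two_right).2 (bb_odd hW k)
      exact hco.isUnit_of_dvd' h1 h2
    · rw [height_vv hW]
      exact hKY k hk.2
    · refine (value_vv hW n k u).trans ?_
      rw [height_vv hW]
      have h1 := hk₀ k hk.1
      have h2 : (0 : ℝ) < 2 * Real.exp (u 0) * (2 ^ (W ^ k) * tm W (k + 1)) := by
        have := tm_pos W (k + 1)
        positivity
      have h3 : (0 : ℝ) < (((2 ^ (W ^ k) : ℕ) : ℝ)) ^ (-w) := by positivity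
      rw [← Real.log_le_log_iff h2 h3, Real.log_rpow (by positivity), Real.log_mul (by positivity)
        (by have := tm_pos W (k + 1); positivity), Real.log_mul (by positivity) (tm_pos W (k + 1)).ne']
      unfold tm
      push_cast
      rw [Real.log_pow, Real.log_pow, one_div, Real.log_inv]
      push_cast
      rw [pow_succ]
      nlinarith
  have hfin : {v : (Fin (n + 1) → ℤ) × (Fin 1 → ℤ) | 0 < v.2 0 ∧
      (∀ d : ℤ, (∀ j, d ∣ v.1 j) → d ∣ v.2 0 → IsUnit d) ∧ (height v : ℝ) ≤ Y ∧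
      ‖value u (fun _ => ((-(Real.exp (u 0)) * ∑' j, tm W j : ℝ) : ℂ)) v‖ ≤ (height v : ℝ) ^ (-w)}.Finite :=
    (bounded_finite (n := n) (m := 1) Y).subset fun v hv => hv.2.2.1
  have h1 := Set.ncard_le_ncard hsub hfin
  rw [Set.ncard_image_of_injective _ hinj, Set.ncard_coe_finset, Nat.card_Icc] at h1
  have h2 : ((K + 1 - k₀ : ℕ) : ℝ) ≤ ({v : (Fin (n + 1) → ℤ) × (Fin 1 → ℤ) | 0 < v.2 0 ∧
      (∀ d : ℤ, (∀ j, d ∣ v.1 j) → d ∣ v.2 0 → IsUnit d) ∧ (height v : ℝ) ≤ Y ∧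
      ‖value u (fun _ => ((-(Real.exp (u 0)) * ∑' j, tm W j : ℝ) : ℂ)) v‖ ≤ (height v : ℝ) ^ (-w)}.ncard : ℝ) := by
    exact_mod_cast h1
  refine le_trans ?_ h2
  have h3 : Real.log (Real.log Y) / Real.log W < K + 1 := by
    have h4 : Real.log (Real.log Y / Real.log 2) / Real.log W < K + 1 := by
      rw [hK]
      exact Nat.lt_floor_add_one _
    refine lt_of_le_of_lt ?_ h4
    apply div_le_div_of_nonneg_right _ hlW.le
    exact Real.log_le_log (by linarith) hq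
  have h4 : ((K + 1 : ℕ) : ℝ) - k₀ ≤ ((K + 1 - k₀ : ℕ) : ℝ) := by
    rcases le_total k₀ (K + 1) with h | h
    · rw [Nat.cast_sub h]
    · rw [Nat.sub_eq_zero_of_le h]
      have : ((K + 1 : ℕ) : ℝ) ≤ k₀ := by exact_mod_cast h
      push_cast at this ⊢
      linarith
  push_cast at h4
  linarith

end Pool.Agent.D0H54.NS
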